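import Pool.Agent.H80.PK.GStmts

/-!
# Board `pkt`, row KER
-/

set_option autoImplicit false

namespace Pool.PK

theorem ker_K0map_comp {A B C : Type} [Ring A] [Ring B] [Ring C] (ψ : B →+* C) (φ : A →+* B) :
    (K0map ψ).comp (K0map φ) = K0map (ψ.comp φ) := by
  apply QuotientAddGroup.addMonoidHom_ext
  apply FreeAbelianGroup.lift_ext
  rintro ⟨n, e⟩
  show ((FreeAbelianGroup.map (gen0 ψ) (FreeAbelianGroup.map (gen0 φ)
    (FreeAbelianGroup.of ⟨n, e⟩)) : FreeAbelianGroup (Σ n, Idem C n)) : K0 C) =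
    ((FreeAbelianGroup.map (gen0 (ψ.comp φ)) (FreeAbelianGroup.of ⟨n, e⟩) :
      FreeAbelianGroup (Σ n, Idem C n)) : K0 C)
  rw [FreeAbelianGroup.map_of_apply, FreeAbelianGroup.map_of_apply, FreeAbelianGroup.map_of_apply]
  rfl

theorem ker_K1map_comp {A B C : Type} [Ring A] [Ring B] [Ring C] [TopologicalSpace A]
    [TopologicalSpace B] [TopologicalSpace C] (ψ : B →+* C) (φ : A →+* B) (hψ : Continuous ψ)
    (hφ : Continuous φ) (χ : A →+* C) (hχ : Continuous χ) (h : ∀ x, ψ (φ x) = χ x) :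
    (K1map ψ hψ).comp (K1map φ hφ) = K1map χ hχ := by
  obtain rfl : ψ.comp φ = χ := RingHom.ext h
  apply QuotientAddGroup.addMonoidHom_ext
  apply FreeAbelianGroup.lift_ext
  rintro ⟨n, e⟩
  show ((FreeAbelianGroup.map (gen1 ψ) (FreeAbelianGroup.map (gen1 φ)
    (FreeAbelianGroup.of ⟨n, e⟩)) : FreeAbelianGroup (Σ n, (Mat C n)ˣ)) : K1 C) =
    ((FreeAbelianGroup.map (gen1 (ψ.comp φ)) (FreeAbelianGroup.of ⟨n, e⟩) :
      FreeAbelianGroup (Σ n, (Mat C n)ˣ)) : K1 C)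
  rw [FreeAbelianGroup.map_of_apply, FreeAbelianGroup.map_of_apply, FreeAbelianGroup.map_of_apply]
  rfl

theorem ker_equiv {G H K : Type} [AddGroup G] [AddGroup H] [AddGroup K] (f : G →+ H)
    (hf : Function.Bijective f) (a : G →+ K) (b : H →+ K) (h : b.comp f = a) :
    Nonempty (a.ker ≃+ b.ker) := by
  have hx : ∀ x, b (f x) = a x := fun x => DFunLike.congr_fun h x
  refine ⟨AddEquiv.ofBijective
    (AddMonoidHom.codRestrict (f.comp a.ker.subtype) b.ker ?_) ⟨?_, ?_⟩⟩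
  · rintro ⟨x, hxa⟩
    show b (f x) = 0
    rw [hx]
    exact hxa
  · rintro ⟨x, hxa⟩ ⟨y, hya⟩ hxy
    have h1 : f x = f y := congrArg Subtype.val hxy
    exact Subtype.ext (hf.1 h1)
  · rintro ⟨y, hy⟩
    obtain ⟨x, rfl⟩ := hf.2 y
    refine ⟨⟨x, ?_⟩, rfl⟩
    show a x = 0
    rw [← hx]
    exact hy

theorem KER : KERStmt := by
  intro A B _ _ _ _ _ _ _ _ φ hφ haug h0 h1
  refine ⟨ker_equiv (K0map (φ : Un A →+* Un B)) h0 _ _ ?_,
    ker_equiv (K1map (φ : Un A →+* Un B) hφ) h1 _ _ ?_⟩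
  · rw [ker_K0map_comp]
    have : (aug B).comp (φ : Un A →+* Un B) = aug A := RingHom.ext haug
    rw [this]
  · exact ker_K1map_comp _ _ _ _ _ _ haug

end Pool.PK
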